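import Pool.Agent.SlopeAsym.Final

/-!
# The minimal slope of `A_g` to leading order

Let `F` be a nonzero Siegel modular form of degree `g` and weight `k` for `Sp_2g(ℤ)` that vanishes
to order at least `m` along the boundary.  Then `(1 - C log g / g) 4 π² e m ≤ g k` with a constant
`C` that does not depend on `g`, `k`, `m`, `F`.  The known upper bound for the minimal slope `s_g`
(Tai) is `(1 + O(log g / g)) 4 π² e / g`, so `g s_g → 4 π² e`.
-/

namespace Pool.Agent.Results.MP_bdec93_ag.AsymptoticSlope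

open Pool.Agent.Slope

/-- The asymptotically sharp lower bound for the slope `k/m`. -/
theorem result : ∃ C : ℝ, 0 < C ∧ ∀ g : ℕ, 2 ≤ g → ∀ (k m : ℕ)
    (F : Matrix (Fin g) (Fin g) ℂ → ℂ), IsSiegelForm g k F → VanishesToOrder m F →
    (∃ Z ∈ HH g, F Z ≠ 0) →
    (1 - C * Real.log g / g) * (4 * Real.pi ^ 2 * Real.exp 1) * m ≤ g * k :=
  Pool.Agent.SlopeAsym.finalThm

end Pool.Agent.Results.MP_bdec93_ag.AsymptoticSlope
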