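import Pool.Agent.Slope.Final

/-!
# Lower bounds of order `1/g` for the slope of the effective cone of `A_g`

Let `F` be a nonzero Siegel modular form of degree `g ≥ 1` and weight `k` for `Sp_2g(ℤ)` that
vanishes to order at least `m` along the boundary.  Then there is a point `Z = X + iY` of the
Siegel upper half space with `4 π m ≤ k (Y⁻¹[a + Xb] + Y[b])` for all nonzero integral `(a,b)`,
and `2 π² m ≤ k ((g+1)!)^(1/g)`.
-/

namespace Pool.Agent.Results.MP_bdec93_ag.SlopeLowerBound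

open Pool.Agent.Slope

/-- Lower bounds for the slope `k/m`: `4 π / max_X m(X)` and `2 π² / ((g+1)!)^(1/g)`. -/
theorem result (g k m : ℕ) (hg : 1 ≤ g) (F : Matrix (Fin g) (Fin g) ℂ → ℂ)
    (hF : IsSiegelForm g k F) (hv : VanishesToOrder m F) (hne : ∃ Z ∈ HH g, F Z ≠ 0) :
    (∃ Z ∈ HH g, ∀ a b : Fin g → ℤ, (a ≠ 0 ∨ b ≠ 0) →
      4 * Real.pi * m ≤ k * latNorm Z a b) ∧
    2 * Real.pi ^ 2 * m ≤ k * ((Nat.factorial (g + 1) : ℕ) : ℝ) ^ (1 / (g : ℝ)) :=
  main' g k m hg F hF hv hne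

end Pool.Agent.Results.MP_bdec93_ag.SlopeLowerBound
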